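import Pool.Agent.Helper49.PC.StM
import Pool.Agent.Helper48.BK.M_MainT

/-!
# Project PC, module MTT: the main term
-/

set_option autoImplicit false

namespace Pool.Agent.Helper49.PC

open Finset
open Pool.Agent.Helper48.BK

theorem thd_MTT {H a b c : ℕ} {d : ℤ} (hc : 1 ≤ c) (hd : |d| ≤ 6 * H) {v : ℕ × ℕ}
    (hv : v ∈ Sol H a b c d) : 0 < thd a b c d v ∧ (c : ℤ) * thd a b c d v =
      a * v.1 + b * v.2 - d := by
  rw [Sol, Finset.mem_filter] at hv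
  obtain ⟨_, h1, _, h2, _, h3⟩ := hv
  have h4 : (4 * H : ℤ) < a * v.1 := by exact_mod_cast h1
  have h5 : (4 * H : ℤ) < b * v.2 := by exact_mod_cast h2
  have h6 := (abs_le.1 hd).2
  have hH : (0 : ℤ) ≤ H := Int.natCast_nonneg H
  have h7 : 0 < (a : ℤ) * v.1 + b * v.2 - d := by linarith
  have hc' : (0 : ℤ) < c := by exact_mod_cast hc
  obtain ⟨k, hk⟩ := h3
  have h8 : thd a b c d v = k := by
    rw [thd, hk, Int.mul_ediv_cancel_left _ hc'.ne']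
  rw [h8, hk]
  rw [hk] at h7
  exact ⟨(mul_pos_iff_of_pos_left hc').1 h7, rfl⟩

theorem wt_MTT {H a b c z : ℕ} {d : ℤ} {u₁ u₂ u₃ : ℕ} (hc : 1 ≤ c) (hd : |d| ≤ 6 * H)
    (hu1 : Nat.Coprime u₁ 30) (hu2 : Nat.Coprime u₂ 30) (hu3 : Nat.Coprime u₃ 30)
    {v : ℕ × ℕ} (hv : v ∈ Sol H a b c d)
    (h30 : (30 : ℤ) ∣ (v.1 : ℤ) - u₁ ∧ (30 : ℤ) ∣ (v.2 : ℤ) - u₂ ∧
      (30 : ℤ) ∣ thd a b c d v - u₃)
    (hq : ∀ p ∈ (Pz z).filter (fun p => 7 ≤ p), ¬ (p : ℤ) ∣ v.1 * v.2 * thd a b c d v) :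
    lz z v.1 * lz z v.2 * lz z (thd a b c d v).toNat = (1 / Vz z) ^ 3 := by
  have hpos := (thd_MTT hc hd hv).1
  have hto : (((thd a b c d v).toNat : ℕ) : ℤ) = thd a b c d v := Int.toNat_of_nonneg hpos.le
  have key : ∀ p ∈ Pz z, ¬ (p : ℤ) ∣ v.1 ∧ ¬ (p : ℤ) ∣ v.2 ∧ ¬ (p : ℤ) ∣ thd a b c d v := by
    intro p hp
    have hpp := (mem_Pz_MainT.1 hp).2
    rcases Nat.lt_or_ge p 7 with h7 | h7
    · exact ⟨cls_MainT hpp h7 hu1 h30.1, cls_MainT hpp h7 hu2 h30.2.1,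
        cls_MainT hpp h7 hu3 h30.2.2⟩
    · have h := hq p (Finset.mem_filter.2 ⟨hp, h7⟩)
      exact ⟨fun h1 => h ((h1.mul_right _).mul_right _), fun h1 => h ((h1.mul_left _).mul_right _),
        fun h1 => h (h1.mul_left _)⟩
  have h1 : lz z v.1 = 1 / Vz z := by
    rw [lz, if_pos]
    intro p hp h
    exact (key p hp).1 (Int.natCast_dvd_natCast.2 h)
  have h2 : lz z v.2 = 1 / Vz z := by
    rw [lz, if_pos]
    intro p hp h
    exact (key p hp).2.1 (Int.natCast_dvd_natCast.2 h)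
  have h3 : lz z (thd a b c d v).toNat = 1 / Vz z := by
    rw [lz, if_pos]
    intro p hp h
    apply (key p hp).2.2
    rw [← hto]
    exact Int.natCast_dvd_natCast.2 h
  rw [h1, h2, h3]
  ring

theorem sol_MTT (hb : StCnt7) (hc : StLoc) (hd : StC30) (he : StEP) :
    ∃ B : ℕ, ∀ (H z a b c : ℕ) (d : ℤ), 1 ≤ a → 1 ≤ b → 1 ≤ c → AdN a b c d → |d| ≤ 6 * H →
      2 ≤ z → (max a (max b c)) ^ 2 * z ^ B ≤ H →
      1 / 7200 * (H : ℝ) ^ 2 / (a * b * c) ≤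
        ∑ v ∈ Sol H a b c d, lz z v.1 * lz z v.2 * lz z (thd a b c d v).toNat := by
  obtain ⟨B', hB'⟩ := Pool.Agent.Helper18.TR.fl 3 (1 / 2) (by norm_num) (by norm_num)
  refine ⟨3 * B' + 20, ?_⟩
  intro H z a b c d h1a h1b h1c hAd hdH hz hH
  obtain ⟨u₁, u₂, u₃, hu1, hu2, hu3, hu⟩ := hd a b c d hAd
  have hM1 : 1 ≤ max a (max b c) := h1a.trans (le_max_left _ _)
  have hH1 : 1 ≤ H := by
    refine le_trans ?_ hH
    exact Nat.one_le_iff_ne_zero.2 (mul_ne_zero (pow_ne_zero _ (by omega))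
      (pow_ne_zero _ (by omega)))
  have hzR : (2 : ℝ) ≤ z := by exact_mod_cast hz
  have haR : (1 : ℝ) ≤ a := by exact_mod_cast h1a
  have hbR : (1 : ℝ) ≤ b := by exact_mod_cast h1b
  have hcR : (1 : ℝ) ≤ c := by exact_mod_cast h1c
  have hHR : (1 : ℝ) ≤ H := by exact_mod_cast hH1
  set Q : Finset ℕ := (Pz z).filter (fun p => 7 ≤ p) with hQ
  have hQp : ∀ p ∈ Q, p.Prime ∧ p ≤ z := fun p hp =>
    ⟨(mem_Pz_MainT.1 (Finset.mem_filter.1 hp).1).2, (mem_Pz_MainT.1 (Finset.mem_filter.1 hp).1).1⟩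
  have hQ7 : ∀ p ∈ Q, 7 ≤ p := fun p hp => (Finset.mem_filter.1 hp).2
  set g : ℕ → ℝ := fun p => (kp a b c d p : ℝ) / (p : ℝ) ^ 2 with hg
  have hg1 : ∀ p ∈ Q, 0 ≤ g p ∧ g p ≤ 3 / p ∧ g p ≤ 1 / 2 := by
    intro p hp
    have h7 : (7 : ℝ) ≤ p := by exact_mod_cast hQ7 p hp
    have h3 := (hc a b c d p hAd (hQp p hp).1 (by have := hQ7 p hp; omega)).2.1
    have h3' : (kp a b c d p : ℝ) ≤ 3 * p := by exact_mod_cast h3
    have h0 : 0 ≤ g p := by positivity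
    have hle : g p ≤ 3 / p := by
      change (kp a b c d p : ℝ) / (p : ℝ) ^ 2 ≤ 3 / p
      rw [div_le_div_iff₀ (by positivity) (by positivity)]
      nlinarith
    refine ⟨h0, hle, hle.trans ?_⟩
    rw [div_le_div_iff₀ (by positivity) (by norm_num)]
    linarith
  set N : ℝ := (H / a : ℝ) * (H / b : ℝ) / (c * 900) with hN
  have hN0 : 0 ≤ N := by positivity
  set R : ℝ := 4 * (z : ℝ) ^ (2 * B') * ((H : ℝ) / a + (H : ℝ) / b + 1) with hR
  have hR0 : 0 ≤ R := by positivity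
  set A : Finset (ℕ × ℕ) := (Sol H a b c d).filter (fun v => (30 : ℤ) ∣ (v.1 : ℤ) - u₁ ∧
    (30 : ℤ) ∣ (v.2 : ℤ) - u₂ ∧ (30 : ℤ) ∣ thd a b c d v - u₃) with hA
  have hcount : ∀ T ⊆ Q, ∏ p ∈ T, p ≤ z ^ B' →
      |((A.filter (fun v => ∀ p ∈ T, (p : ℤ) ∣ v.1 * v.2 * thd a b c d v)).card : ℝ) -
        N * ∏ p ∈ T, g p| ≤ R := by
    intro T hT hprod
    have h1 := hb H a b c d u₁ u₂ u₃ T h1a h1b h1c hAd hu
      (fun p hp => ⟨(hQp p (hT hp)).1, hQ7 p (hT hp)⟩)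
    rw [hA, Finset.filter_filter]
    refine h1.trans ?_
    rw [hR]
    have h2 : ((∏ p ∈ T, p : ℕ) : ℝ) ≤ (z : ℝ) ^ B' := by exact_mod_cast hprod
    have h3 : ((∏ p ∈ T, p : ℕ) : ℝ) ^ 2 ≤ (z : ℝ) ^ (2 * B') := by
      rw [mul_comm 2 B', pow_mul]
      exact pow_le_pow_left₀ (Nat.cast_nonneg _) h2 2
    have h4 : 0 ≤ (H : ℝ) / a + (H : ℝ) / b + 1 := by positivity
    exact mul_le_mul_of_nonneg_right (mul_le_mul_of_nonneg_left h3 (by norm_num)) h4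
  have hfl := hB' z hz Q hQp g hg1 (ℕ × ℕ) A
    (fun p v => (p : ℤ) ∣ v.1 * v.2 * thd a b c d v) N R hN0 hR0 hcount
  set S : Finset (ℕ × ℕ) := A.filter
    (fun v => ∀ p ∈ Q, ¬ (p : ℤ) ∣ v.1 * v.2 * thd a b c d v) with hS
  -- the sum is at least the number of points of `S` times `1 / V ^ 3`
  have hsum : (S.card : ℝ) * (1 / Vz z) ^ 3 ≤
      ∑ v ∈ Sol H a b c d, lz z v.1 * lz z v.2 * lz z (thd a b c d v).toNat := by
    have hsub : S ⊆ Sol H a b c d := (Finset.filter_subset _ _).trans (Finset.filter_subset _ _)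
    refine le_trans ?_ (Finset.sum_le_sum_of_subset_of_nonneg hsub fun v _ _ =>
      mul_nonneg (mul_nonneg (lz_nonneg_MainT _ _) (lz_nonneg_MainT _ _)) (lz_nonneg_MainT _ _))
    rw [← nsmul_eq_mul, ← Finset.sum_const]
    apply Finset.sum_le_sum
    intro v hv
    obtain ⟨h1, h2⟩ := Finset.mem_filter.1 hv
    obtain ⟨h3, h4⟩ := Finset.mem_filter.1 h1
    exact (wt_MTT h1c hdH hu1 hu2 hu3 h3 h4 h2).ge
  refine le_trans ?_ hsum
  have hV := Vz_pos_MainT z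
  have hVz : 1 / Vz z ≤ z := by
    rw [div_le_iff₀ hV]
    have h1 := Vz_ge_MainT z (by omega)
    rw [div_le_iff₀ (by linarith)] at h1
    linarith
  have hV3 : (1 / Vz z) ^ 3 ≤ (z : ℝ) ^ 3 := pow_le_pow_left₀ (one_div_pos.2 hV).le hVz 3
  have hV0 : 0 ≤ (1 / Vz z) ^ 3 := by positivity
  have hprod : ∏ p ∈ Q, ((1 - 1 / (p : ℝ)) * (1 - 2 / (p : ℝ))) ≤ ∏ p ∈ Q, (1 - g p) := by
    apply Finset.prod_le_prod
    · intro p hp
      have h7 : (7 : ℝ) ≤ p := by exact_mod_cast hQ7 p hp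
      have h1 : 1 / (p : ℝ) ≤ 1 / 7 := one_div_le_one_div_of_le (by norm_num) h7
      have h2 : 2 / (p : ℝ) = 2 * (1 / p) := by ring
      rw [h2]
      exact mul_nonneg (by linarith) (by linarith)
    · intro p hp
      have h7 : (7 : ℝ) ≤ p := by exact_mod_cast hQ7 p hp
      have h3 := (hc a b c d p hAd (hQp p hp).1 (by have := hQ7 p hp; omega)).1
      have hp1 : 1 ≤ p := by have := hQ7 p hp; omega
      have hp2 : 2 ≤ p := by have := hQ7 p hp; omega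
      have h4 : (kp a b c d p : ℝ) + ((p : ℝ) - 1) * (p - 2) ≤ (p : ℝ) ^ 2 := by
        have h5 : ((kp a b c d p + (p - 1) * (p - 2) : ℕ) : ℝ) ≤ ((p ^ 2 : ℕ) : ℝ) := by
          exact_mod_cast h3
        push_cast [Nat.cast_sub hp1, Nat.cast_sub hp2] at h5
        linarith
      have hp0 : (0 : ℝ) < (p : ℝ) ^ 2 := by positivity
      have h6 : (1 - 1 / (p : ℝ)) * (1 - 2 / (p : ℝ)) = (((p : ℝ) - 1) * (p - 2)) / p ^ 2 := by
        field_simp
      rw [h6]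
      change _ ≤ 1 - (kp a b c d p : ℝ) / (p : ℝ) ^ 2
      have h7 : 1 - (kp a b c d p : ℝ) / (p : ℝ) ^ 2 =
          ((p : ℝ) ^ 2 - kp a b c d p) / (p : ℝ) ^ 2 := by
        rw [sub_div, div_self hp0.ne']
      rw [h7]
      exact div_le_div_of_nonneg_right (by linarith) hp0.le
  have hEP := he z
  have hmain : 1 / 2 ≤ (1 / Vz z) ^ 3 * ∏ p ∈ Q, (1 - g p) :=
    hEP.trans (mul_le_mul_of_nonneg_left hprod hV0)
  have hlow : N * (∏ p ∈ Q, (1 - g p)) / 2 - (z : ℝ) ^ B' * R ≤ S.card := by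
    have h1 := (abs_le.1 hfl).1
    linarith
  have hnum := num_MainT (B' := B') h1a h1b h1c hz hH
  have h8 : (N * (∏ p ∈ Q, (1 - g p)) / 2 - (z : ℝ) ^ B' * R) * (1 / Vz z) ^ 3 ≤
      (S.card : ℝ) * (1 / Vz z) ^ 3 := mul_le_mul_of_nonneg_right hlow hV0
  refine le_trans ?_ h8
  have h9 : (z : ℝ) ^ B' * R * (1 / Vz z) ^ 3 ≤ N / 8 := by
    have h10 : (z : ℝ) ^ B' * R * (1 / Vz z) ^ 3 ≤ (z : ℝ) ^ B' * R * (z : ℝ) ^ 3 :=
      mul_le_mul_of_nonneg_left hV3 (by positivity)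
    refine h10.trans (le_trans (le_of_eq ?_) hnum)
    rw [hR]
    ring
  have h11 : N / 4 ≤ N * (∏ p ∈ Q, (1 - g p)) / 2 * (1 / Vz z) ^ 3 := by
    have h12 : N * (1 / 2) ≤ N * ((1 / Vz z) ^ 3 * ∏ p ∈ Q, (1 - g p)) :=
      mul_le_mul_of_nonneg_left hmain hN0
    have h13 : N * (∏ p ∈ Q, (1 - g p)) / 2 * (1 / Vz z) ^ 3 =
        N * ((1 / Vz z) ^ 3 * ∏ p ∈ Q, (1 - g p)) / 2 := by ring
    rw [h13]
    linarith
  have h14 : 1 / 7200 * (H : ℝ) ^ 2 / (a * b * c) = N / 8 := by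
    rw [hN]
    field_simp
    ring
  rw [h14, sub_mul]
  linarith


theorem hMTT (h1 : StCnt7) (h2 : StLoc) (h3 : StC30) (h4 : StEP) : StMTT := by
  obtain ⟨B, hB⟩ := sol_MTT h1 h2 h3 h4
  refine ⟨1 / 7200, by norm_num, B, ?_⟩
  intro a b c Z z d ha hb hc hAd hd hz hH
  have hd' : |d| ≤ 6 * ((a * b * c * Z : ℕ) : ℤ) := by push_cast; exact hd
  have key := hB (a * b * c * Z) z a b c d ha hb hc hAd hd' hz hH
  have haR : (0 : ℝ) < a := by exact_mod_cast ha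
  have hbR : (0 : ℝ) < b := by exact_mod_cast hb
  have hcR : (0 : ℝ) < c := by exact_mod_cast hc
  have e1 : 1 / 7200 * ((a * b * c * Z : ℕ) : ℝ) ^ 2 / (a * b * c) =
      1 / 7200 * (a * b * c * Z ^ 2) := by
    push_cast
    field_simp
  rw [e1] at key
  refine key.trans ?_
  set H := a * b * c * Z with hHdef
  set f := cut (lz z) (4 * (b * c) * Z) (5 * (b * c) * Z) with hf
  set g := cut (lz z) (4 * (a * c) * Z) (5 * (a * c) * Z) with hg
  set h := cut (lz z) (2 * (a * b) * Z) (16 * (a * b) * Z) with hh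
  have hcut : ∀ u w n, 0 ≤ cut (lz z) u w n := by
    intro u w n
    unfold cut
    split_ifs
    · exact lz_nonneg_MainT z n
    · exact le_rfl
  have hsub : Sol H a b c d ⊆ (Ioc 0 (b * c * (16 * Z))) ×ˢ (Ioc 0 (a * c * (16 * Z))) := by
    intro v hv
    rw [Sol, Finset.mem_filter] at hv
    obtain ⟨h0, h1, h2, h3, h4, _⟩ := hv
    rw [mem_product, mem_Icc, mem_Icc] at h0
    rw [mem_product, mem_Ioc, mem_Ioc]
    refine ⟨⟨by omega, ?_⟩, by omega, ?_⟩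
    · have : a * v.1 ≤ a * (b * c * (16 * Z)) := by
        refine h2.trans ?_
        rw [hHdef]
        nlinarith [Nat.zero_le (a * b * c * Z)]
      exact Nat.le_of_mul_le_mul_left this (by omega)
    · have : b * v.2 ≤ b * (a * c * (16 * Z)) := by
        refine h4.trans ?_
        rw [hHdef]
        nlinarith [Nat.zero_le (a * b * c * Z)]
      exact Nat.le_of_mul_le_mul_left this (by omega)
  have hT : T3 f g h (b * c * (16 * Z)) (a * c * (16 * Z)) (a * b * (16 * Z)) a b c d =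
      ∑ v ∈ (Ioc 0 (b * c * (16 * Z))) ×ˢ (Ioc 0 (a * c * (16 * Z))),
        ∑ l ∈ Ioc 0 (a * b * (16 * Z)),
          if (a : ℤ) * v.1 + b * v.2 = c * l + d then f v.1 * g v.2 * h l else 0 := by
    rw [T3, Finset.sum_product]
  rw [hT]
  have hnn : ∀ (v : ℕ × ℕ) (l : ℕ), 0 ≤ (if (a : ℤ) * v.1 + b * v.2 = c * l + d then
      f v.1 * g v.2 * h l else 0) := by
    intro v l
    split_ifs
    · exact mul_nonneg (mul_nonneg (hcut _ _ _) (hcut _ _ _)) (hcut _ _ _)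
    · exact le_rfl
  refine le_trans ?_ (Finset.sum_le_sum_of_subset_of_nonneg hsub fun v _ _ =>
    Finset.sum_nonneg fun l _ => hnn v l)
  apply Finset.sum_le_sum
  intro v hv
  obtain ⟨hp, he⟩ := thd_MTT hc hd' hv
  have hto : (((thd a b c d v).toNat : ℕ) : ℤ) = thd a b c d v := Int.toNat_of_nonneg hp.le
  have hv' := hv
  rw [Sol, Finset.mem_filter] at hv'
  obtain ⟨_, h1, h2, h3, h4, _⟩ := hv'
  have hdl := (abs_le.1 hd')
  have hH0 : (0 : ℤ) ≤ (H : ℤ) := Int.natCast_nonneg H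
  have hl1 : 2 * H < c * (thd a b c d v).toNat := by
    have : (2 : ℤ) * H < c * ((thd a b c d v).toNat : ℕ) := by
      rw [hto, he]
      have h5 : (4 * H : ℤ) < a * v.1 := by exact_mod_cast h1
      have h6 : (4 * H : ℤ) < b * v.2 := by exact_mod_cast h3
      linarith [hdl.2]
    exact_mod_cast this
  have hl2 : c * (thd a b c d v).toNat ≤ 16 * H := by
    have : (c : ℤ) * ((thd a b c d v).toNat : ℕ) ≤ 16 * H := by
      rw [hto, he]
      have h5 : (a * v.1 : ℤ) ≤ 5 * H := by exact_mod_cast h2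
      have h6 : (b * v.2 : ℤ) ≤ 5 * H := by exact_mod_cast h4
      linarith [hdl.1]
    exact_mod_cast this
  have hH1 : 4 * H = a * (4 * (b * c) * Z) := by rw [hHdef]; ring
  have hH2 : 5 * H = a * (5 * (b * c) * Z) := by rw [hHdef]; ring
  have hH3 : 4 * H = b * (4 * (a * c) * Z) := by rw [hHdef]; ring
  have hH4 : 5 * H = b * (5 * (a * c) * Z) := by rw [hHdef]; ring
  have hH5 : 2 * H = c * (2 * (a * b) * Z) := by rw [hHdef]; ring
  have hH6 : 16 * H = c * (16 * (a * b) * Z) := by rw [hHdef]; ring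
  have hfv : f v.1 = lz z v.1 := by
    rw [hf, cut, if_pos]
    rw [hH1] at h1
    rw [hH2] at h2
    exact ⟨Nat.lt_of_mul_lt_mul_left h1, Nat.le_of_mul_le_mul_left h2 (by omega)⟩
  have hgv : g v.2 = lz z v.2 := by
    rw [hg, cut, if_pos]
    rw [hH3] at h3
    rw [hH4] at h4
    exact ⟨Nat.lt_of_mul_lt_mul_left h3, Nat.le_of_mul_le_mul_left h4 (by omega)⟩
  have hhv : h (thd a b c d v).toNat = lz z (thd a b c d v).toNat := by
    rw [hh, cut, if_pos]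
    rw [hH5] at hl1
    rw [hH6] at hl2
    exact ⟨Nat.lt_of_mul_lt_mul_left hl1, Nat.le_of_mul_le_mul_left hl2 (by omega)⟩
  have hmem : (thd a b c d v).toNat ∈ Ioc 0 (a * b * (16 * Z)) := by
    rw [mem_Ioc]
    refine ⟨by omega, ?_⟩
    rw [hH6] at hl2
    have := Nat.le_of_mul_le_mul_left hl2 (by omega)
    refine this.trans (le_of_eq ?_)
    ring
  refine le_trans (le_of_eq ?_) (Finset.single_le_sum (fun l _ => hnn v l) hmem)
  rw [if_pos, hfv, hgv, hhv]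
  rw [hto, he]
  ring

end Pool.Agent.Helper49.PC
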